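import Pool.Agent.R179.MobM

open R179.Mob

namespace Pool.Agent.Results.MP_dcc731_co.Moebius600Cell

/-- The 600-cell `{3,3,5}` is Möbius unique: if `v` and `w` are the vertices of two edge-scribed
convex 4-polytopes of combinatorial type `{3,3,5}` with isomorphic face lattices, then some Möbius
transformation of the extended 3-space maps the ball-arrangement projection of the first onto that
of the second (respecting the given isomorphism `e`). -/
theorem result {ι κ : Type} [Fintype ι] [DecidableEq ι] [Fintype κ] [DecidableEq κ]
    (v : ι → E4) (w : κ → E4) (hv : IsPolytope v) (hw : IsPolytope w)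
    (hvs : EdgeScribed v) (hws : EdgeScribed w) (ht : Is335 v) (e : ι ≃ κ)
    (he : ∀ F : Finset ι, IsFace v F ↔ IsFace w (F.map e.toEmbedding)) :
    ∃ μ, IsMoebius μ ∧ (∀ i, μ '' ball (v i) = ball (w (e i))) ∧
      (fun b => μ '' b) '' Set.range (fun i => ball (v i)) = Set.range (fun k => ball (w k)) :=
  moebius_unique' hv hw hvs hws ht e he

end Pool.Agent.Results.MP_dcc731_co.Moebius600Cell
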